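import Pool.Agent.Helper50.CT.Goals

/-!
# Project CT, packet END: the end of the tube
-/

set_option autoImplicit false

open Set Filter Topology

namespace Pool.Agent.Helper37.CT

open Pool.Agent.Helper50.CT

theorem goalEND (hSJ : Pool.Agent.Helper50.CT.StmtSJ) (hLPC : Pool.Agent.Helper50.CT.StmtLPC)
    (hBG : Pool.Agent.Helper50.CT.StmtBG) (hGEN : Pool.Agent.Helper50.CT.StmtGEN)
    (hFC : Pool.Agent.Helper50.CT.StmtFC) (hTRI : Pool.Agent.Helper50.CT.StmtTRI) :
    Pool.Agent.Helper50.CT.StmtEND := by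
  intro n κ X T _ _ _ π hκ hG hC hcov p q c D e h hR k0
  have h1 : ∀ x y : X, dist (π x) (π y) ≤ dist x y := by
    intro x y
    have := hcov.le x y 0
    rwa [zero_vadd] at this
  obtain ⟨f1, f2⟩ := hFC κ X T π h1 p q c D e h hR
  have he := hR.epos
  have hh := hR.hpos
  have hD := hR.hD
  have hkh := hR.kh
  have hsm := hR.small
  obtain ⟨b1, -, -⟩ := hBG n X T π hcov p q (h / 100)
  have hDq : h / 100 < dist (π p) (π q) := by rw [hR.dpq]; linarith
  obtain ⟨B, hB⟩ := b1 hDq
  rw [← hB]
  -- the generation lemma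
  have hgen : k0 ∈ AddSubgroup.closure
      ({k : Fin n → ℤ | JoinedIn (Up π p (h / 100)) q (k +ᵥ q)} ∪
        Sh n p (2 * (h / 100) + 6 * e)) := by
    apply hGEN n X T π hG hcov p q p (c (h / 100 + 2 * e)) (-1) (h / 100) e (h / 100 + 2 * e)
      (h / 100 + 2 * e) (2 * (h / 100) + 6 * e) he (by linarith) hR.thin
    · rw [hR.dpq]; linarith
    · intro w _ hw
      rw [dist_comm]; exact hw
    · exact f1 _ ⟨by linarith, by linarith⟩
    · have := hR.iso 0 ⟨le_refl _, by linarith⟩ (h / 100 + 2 * e) ⟨by linarith, by linarith⟩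
      rw [hR.c0] at this
      rw [this, abs_sub_comm, sub_zero, abs_of_nonneg (by linarith)]
    · have := f2 (h / 100) (h / 100 + 2 * e) D (by linarith) (by linarith) (by linarith) le_rfl
      rwa [hR.cD] at this
    · linarith
    · linarith
    · obtain ⟨γ⟩ := (hLPC X hG).2 q (k0 +ᵥ q)
      refine ⟨γ, fun t => ?_⟩
      show (-1 : ℝ) < dist (π p) (π (γ t))
      have := dist_nonneg (x := π p) (y := π (γ t))
      linarith
  -- short elements
  have hshort : ∀ k ∈ Sh n p (2 * (h / 100) + 6 * e), k + k ∈ B := by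
    intro k hk
    by_contra hkk
    have hkB : k ∉ B := fun hc => hkk (B.add_mem hc hc)
    have hnkB : -k ∉ B := fun hc => hkB (by simpa using B.neg_mem hc)
    have hk' : dist p (k +ᵥ p) ≤ 2 * (h / 100) + 6 * e := hk
    have hnk' : dist p (-k +ᵥ p) ≤ 2 * (h / 100) + 6 * e := by
      have := hcov.isom k p (-k +ᵥ p)
      rw [vadd_vadd, add_neg_cancel, zero_vadd] at this
      rw [← this, dist_comm]; exact hk'
    have hqh : JoinedIn (Up π p (h / 100)) (c h) q := by
      have := f2 (h / 100) h D (by linarith) (by linarith) (by linarith) le_rfl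
      rwa [hR.cD] at this
    have key : ∀ j : Fin n → ℤ, JoinedIn (Up π p (h / 100)) (c h) (j +ᵥ c h) → j ∈ B := by
      intro j hj
      rw [hB]
      obtain ⟨-, b2, -⟩ := hBG n X T π hcov p (c h) (h / 100)
      exact b2 q j hqh hj
    have hfh : dist (π p) (π (c h)) = h := f1 h ⟨by linarith, by linarith⟩
    have hfk : ∀ j : Fin n → ℤ, dist (π p) (π (j +ᵥ c h)) = h := by
      intro j; rw [hcov.inv, hfh]
    have hd1 : dist p (c h) = h := by
      have := hR.iso 0 ⟨le_refl _, by linarith⟩ h ⟨by linarith, by linarith⟩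
      rw [hR.c0] at this
      rw [this, abs_sub_comm, sub_zero, abs_of_nonneg (by linarith)]
    have hlow : ∀ j : Fin n → ℤ, h ≤ dist p (j +ᵥ c h) := by
      intro j
      have := hcov.le p (c h) j
      rwa [hfh] at this
    have hup : ∀ j : Fin n → ℤ, dist p (j +ᵥ p) ≤ 2 * (h / 100) + 6 * e →
        dist p (j +ᵥ c h) ≤ h + (2 * (h / 100) + 6 * e) := by
      intro j hj
      have t1 := dist_triangle p (j +ᵥ p) (j +ᵥ c h)
      have t2 := hcov.isom j p (c h)
      rw [hd1] at t2
      linarith
    have hp2 := hup k hk'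
    have hp3 := hup (-k) hnk'
    have hl2 := hlow k
    have hl3 := hlow (-k)
    have hfar1 : 2 * (h - h / 100) ≤ dist (c h) (k +ᵥ c h) := by
      by_contra hc
      push Not at hc
      apply hkB
      apply key
      apply hSJ X T π hG h1
      rw [hfh, hfk]; linarith
    have hfar2 : 2 * (h - h / 100) ≤ dist (c h) (-k +ᵥ c h) := by
      by_contra hc
      push Not at hc
      apply hnkB
      apply key
      apply hSJ X T π hG h1
      rw [hfh, hfk]; linarith
    have hfar3 : 2 * (h - h / 100) ≤ dist (k +ᵥ c h) (-k +ᵥ c h) := by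
      by_contra hc
      push Not at hc
      apply hkk
      apply key
      have hj : JoinedIn (Up π p (h / 100)) (k +ᵥ c h) (-k +ᵥ c h) := by
        apply hSJ X T π hG h1
        rw [hfk, hfk]; linarith
      obtain ⟨-, -, b3⟩ := hBG n X T π hcov p q (h / 100)
      have := b3 _ _ k hj
      rw [vadd_vadd, vadd_vadd, add_neg_cancel, zero_vadd] at this
      exact this.symm
    have hkb : ∀ d : ℝ, d ≤ h + (2 * (h / 100) + 6 * e) → κ * d ≤ 11 / 10 := by
      intro d hd
      have : d ≤ 11 / 10 * h := by linarith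
      calc κ * d ≤ κ * (11 / 10 * h) := by gcongr
        _ = 11 / 10 * (κ * h) := by ring
        _ ≤ 11 / 10 := by linarith
    exact hTRI κ hκ X hC p (c h) (k +ᵥ c h) (-k +ᵥ c h) (6 * (h / 100) + 12 * e)
      (by linarith) (by linarith) (by linarith)
      (hkb _ (by linarith)) (hkb _ hp2) (hkb _ hp3)
      (by linarith) (by linarith) (by linarith)
      (by linarith) (by linarith) (by linarith)
  -- conclusion
  refine AddSubgroup.closure_induction (p := fun k _ => k + k ∈ B) ?_ ?_ ?_ ?_ hgen
  · rintro k (hk | hk)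
    · have : k ∈ B := (hB k).2 hk
      exact B.add_mem this this
    · exact hshort k hk
  · simp
  · intro a b _ _ ha hb
    have : a + b + (a + b) = (a + a) + (b + b) := by abel
    rw [this]
    exact B.add_mem ha hb
  · intro a _ ha
    have : -a + -a = -(a + a) := by abel
    rw [this]
    exact B.neg_mem ha

end Pool.Agent.Helper37.CT
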